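import Pool.Agent.Helper6.NX.GoalsD

/-! Project NX, packet IS1. -/

set_option autoImplicit false

namespace Pool.Agent.Helper82.NX

open Equiv Equiv.Perm Pool.Agent.Helper15.An Pool.Agent.Helper6.NX

variable {n : ℕ}

/-- the fixed points -/
def FX (V : Perm (Fin n)) : Finset (Fin n) := Finset.univ.filter fun x => V x = x

theorem card_FX (V : Perm (Fin n)) : (FX V).card = fixc V := rfl

theorem mem_FX {V : Perm (Fin n)} {x : Fin n} : x ∈ FX V ↔ V x = x := by
  simp [FX]

open Classical in
/-- the smallest points of the nontrivial cycles of `V` in `S` -/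
noncomputable def RR (V : Perm (Fin n)) (S : Finset (Fin n)) : Finset (Fin n) :=
  (S \ FX V).filter fun p => ∀ q, SameCycle V p q → p ≤ q

theorem mem_RR {V : Perm (Fin n)} {S : Finset (Fin n)} {p : Fin n} :
    p ∈ RR V S ↔ (p ∈ S ∧ V p ≠ p) ∧ ∀ q, SameCycle V p q → p ≤ q := by
  simp [RR, mem_FX]

theorem inv_step {V : Perm (Fin n)} {S : Finset (Fin n)} (hS : im V S = S) {p : Fin n}
    (hp : p ∈ S) : V p ∈ S := by
  rw [← hS]
  exact Finset.mem_image_of_mem _ hp

theorem inv_pow {V : Perm (Fin n)} {S : Finset (Fin n)} (hS : im V S = S) {p : Fin n}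
    (hp : p ∈ S) (k : ℕ) : (V ^ k) p ∈ S := by
  induction k with
  | zero => simpa using hp
  | succ k ih =>
    rw [pow_succ', Perm.mul_apply]
    exact inv_step hS ih

theorem inv_cycle {V : Perm (Fin n)} {S : Finset (Fin n)} (hS : im V S = S) {p q : Fin n}
    (hp : p ∈ S) (h : SameCycle V p q) : q ∈ S := by
  obtain ⟨k, hk⟩ := h.exists_nat_pow_eq
  rw [← hk]
  exact inv_pow hS hp k

/-- every nonfixed point of `S` is on the cycle of a point of `RR V S` -/
theorem exists_RR {V : Perm (Fin n)} {S : Finset (Fin n)} (hS : im V S = S) {q : Fin n}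
    (hq : q ∈ S) (hq' : V q ≠ q) : ∃ p ∈ RR V S, SameCycle V p q := by
  classical
  have hne : ((Finset.univ : Finset (Fin n)).filter (fun p => SameCycle V q p)).Nonempty :=
    ⟨q, by simp [SameCycle.refl]⟩
  obtain ⟨p, hp, hmin⟩ := Finset.exists_min_image _ (fun x => x) hne
  have hqp : SameCycle V q p := by simpa using hp
  refine ⟨p, mem_RR.mpr ⟨⟨inv_cycle hS hq hqp, ?_⟩, ?_⟩, hqp.symm⟩
  · intro h
    exact hq' (hqp.apply_eq_self_iff.mpr h)
  · intro r hr
    exact hmin r (by simpa using hqp.trans hr)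

theorem sdiff_eq {V : Perm (Fin n)} {S T : Finset (Fin n)} (hS : im V S = S) (hT : im V T = T)
    (hR : RR V S = RR V T) : S \ FX V ⊆ T \ FX V := by
  intro q hq
  rw [Finset.mem_sdiff, mem_FX] at hq
  obtain ⟨p, hp, hpq⟩ := exists_RR hS hq.1 hq.2
  rw [hR] at hp
  rw [Finset.mem_sdiff, mem_FX]
  exact ⟨inv_cycle hT (mem_RR.mp hp).1.1 hpq, hq.2⟩

/-- the number of nontrivial cycles -/
theorem card_RR_le {V : Perm (Fin n)} {S : Finset (Fin n)} (hS : im V S = S) :
    (RR V S).card ≤ (S.card - (S ∩ FX V).card) / 2 := by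
  classical
  have hdisj : Disjoint (RR V S) ((RR V S).image V) := by
    rw [Finset.disjoint_left]
    intro p hp hp2
    obtain ⟨r, hr, hrp⟩ := Finset.mem_image.mp hp2
    have hr' := mem_RR.mp hr
    have hp' := mem_RR.mp hp
    have h1 : SameCycle V r p := ⟨1, by simpa using hrp⟩
    have h2 : r ≤ p := hr'.2 p h1
    have h3 : p ≤ r := hp'.2 r h1.symm
    have h4 : p = r := le_antisymm h3 h2
    exact hr'.1.2 (by rw [hrp, h4])
  have hsub : RR V S ∪ (RR V S).image V ⊆ S \ FX V := by
    intro q hq
    rw [Finset.mem_sdiff, mem_FX]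
    rcases Finset.mem_union.mp hq with h | h
    · exact (mem_RR.mp h).1
    · obtain ⟨r, hr, hrp⟩ := Finset.mem_image.mp h
      have hr' := mem_RR.mp hr
      rw [← hrp]
      exact ⟨inv_step hS hr'.1.1, fun h => hr'.1.2 (V.injective h)⟩
  have hcard := Finset.card_le_card hsub
  rw [Finset.card_union_of_disjoint hdisj, Finset.card_image_of_injective _ V.injective] at hcard
  have h2 : (S \ FX V).card + (S ∩ FX V).card = S.card := Finset.card_sdiff_add_card_inter S (FX V)
  omega

theorem emb_pow {V V' : Perm (Fin n)} {S : Finset (Fin n)} (hS : im V S = S)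
    (e : S ↪ Fin n) (he : ∀ u v : S, V v = u → e v = V' (e u)) (p : Fin n) (hp : p ∈ S) (k : ℕ) :
    e ⟨p, hp⟩ = (V' ^ k) (e ⟨(V ^ k) p, inv_pow hS hp k⟩) := by
  induction k with
  | zero => simp
  | succ k ih =>
    have h1 := he ⟨(V ^ (k + 1)) p, inv_pow hS hp (k + 1)⟩ ⟨(V ^ k) p, inv_pow hS hp k⟩
      (by simp only [pow_succ', Perm.mul_apply])
    rw [ih, h1, pow_succ V' k, Perm.mul_apply]

theorem emb_le {V V' : Perm (Fin n)} {S : Finset (Fin n)} (hS : im V S = S) :
    emb V V' S ≤ (fixc V').descFactorial (S ∩ FX V).card * n ^ (RR V S).card := by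
  classical
  have hfix : ∀ (e : {e : S ↪ Fin n // ∀ u v : S, V v = u → e v = V' (e u)})
      (x : (S ∩ FX V : Finset (Fin n))), e.1 ⟨x, (Finset.mem_inter.mp x.2).1⟩ ∈ FX V' := by
    intro e x
    rw [mem_FX]
    have hx : V x = x := mem_FX.mp (Finset.mem_inter.mp x.2).2
    exact (e.2 ⟨x, (Finset.mem_inter.mp x.2).1⟩ ⟨x, (Finset.mem_inter.mp x.2).1⟩ hx).symm
  let Φ : {e : S ↪ Fin n // ∀ u v : S, V v = u → e v = V' (e u)} →
      (↥(S ∩ FX V) ↪ ↥(FX V')) × (↥(RR V S) → Fin n) := fun e =>
    (⟨fun x => ⟨e.1 ⟨x, (Finset.mem_inter.mp x.2).1⟩, hfix e x⟩, by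
      intro x y hxy
      have h1 := congrArg Subtype.val hxy
      have h2 := e.1.injective h1
      exact Subtype.ext (congrArg (fun z : S => (z : Fin n)) h2)⟩,
      fun p => e.1 ⟨p, (mem_RR.mp p.2).1.1⟩)
  have hinj : Function.Injective Φ := by
    intro e e' hee
    have h1 : ∀ x : (S ∩ FX V : Finset (Fin n)), e.1 ⟨x, (Finset.mem_inter.mp x.2).1⟩ =
        e'.1 ⟨x, (Finset.mem_inter.mp x.2).1⟩ := by
      intro x
      have := congrArg (fun z => ((z.1 x : (FX V' : Finset (Fin n))) : Fin n)) hee
      exact this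
    have h2 : ∀ p : ↥(RR V S), e.1 ⟨p, (mem_RR.mp p.2).1.1⟩ =
        e'.1 ⟨p, (mem_RR.mp p.2).1.1⟩ := by
      intro p
      exact congrFun (congrArg (fun z => z.2) hee) p
    apply Subtype.ext
    apply DFunLike.ext
    rintro ⟨u, hu⟩
    by_cases hf : V u = u
    · exact h1 ⟨u, Finset.mem_inter.mpr ⟨hu, mem_FX.mpr hf⟩⟩
    · obtain ⟨p, hp, hpu⟩ := exists_RR hS hu hf
      obtain ⟨k, hk⟩ := hpu.exists_nat_pow_eq
      have hpS := (mem_RR.mp hp).1.1
      have a1 := emb_pow hS e.1 e.2 p hpS k
      have a2 := emb_pow hS e'.1 e'.2 p hpS k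
      have a3 := h2 ⟨p, hp⟩
      simp only [hk] at a1 a2
      rw [a1, a2] at a3
      exact (V' ^ k).injective a3
  have h := Nat.card_le_card_of_injective Φ hinj
  rw [Nat.card_prod, Nat.card_eq_fintype_card (α := (_ ↪ _)), Fintype.card_embedding_eq,
    Nat.card_eq_fintype_card (α := (_ → _)), Fintype.card_fun] at h
  simp only [Fintype.card_coe, Fintype.card_fin] at h
  exact h

theorem card_small (m : ℕ) : (((Finset.univ : Finset (Finset (Fin n))).filter
    (fun T => T.card ≤ m)).card) ≤ ∑ j ∈ Finset.range (m + 1), n.choose j := by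
  classical
  have hsub : ((Finset.univ : Finset (Finset (Fin n))).filter (fun T => T.card ≤ m)) ⊆
      (Finset.range (m + 1)).biUnion (fun j => Finset.powersetCard j Finset.univ) := by
    intro T hT
    rw [Finset.mem_biUnion]
    refine ⟨T.card, ?_, ?_⟩
    · rw [Finset.mem_range]
      have := (Finset.mem_filter.mp hT).2
      omega
    · rw [Finset.mem_powersetCard]
      exact ⟨Finset.subset_univ _, rfl⟩
  refine le_trans (Finset.card_le_card hsub) ?_
  refine le_trans Finset.card_biUnion_le ?_
  refine Finset.sum_le_sum fun j _ => ?_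
  rw [Finset.card_powersetCard, Finset.card_univ, Fintype.card_fin]

/-- the number of invariant sets with given size and given number of fixed points -/
theorem card_sets (V : Perm (Fin n)) (s c : ℕ) :
    (((Finset.powersetCard s (Finset.univ : Finset (Fin n))).filter
      (fun S => im V S = S)).filter (fun S => (S ∩ FX V).card = c)).card ≤
      (fixc V).choose c * ∑ j ∈ Finset.range ((s - c) / 2 + 1), n.choose j := by
  classical
  have h1 : (((Finset.powersetCard s (Finset.univ : Finset (Fin n))).filter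
      (fun S => im V S = S)).filter (fun S => (S ∩ FX V).card = c)).card ≤
      ((Finset.powersetCard c (FX V)) ×ˢ ((Finset.univ : Finset (Finset (Fin n))).filter
        (fun T => T.card ≤ (s - c) / 2))).card := by
    refine Finset.card_le_card_of_injOn (fun S => (S ∩ FX V, RR V S)) ?_ ?_
    · intro S hS
      have hS' := Finset.mem_coe.mp hS
      rw [Finset.mem_filter, Finset.mem_filter, Finset.mem_powersetCard] at hS'
      obtain ⟨⟨⟨_, hcard⟩, hinv⟩, hc⟩ := hS'
      simp only [Finset.coe_product, Set.mem_prod, Finset.mem_coe, Finset.mem_powersetCard,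
        Finset.mem_filter, Finset.mem_univ, true_and]
      refine ⟨⟨Finset.inter_subset_right, hc⟩, ?_⟩
      have := card_RR_le hinv
      rw [hcard, hc] at this
      exact this
    · intro S hS T hT hST
      have hS' := Finset.mem_coe.mp hS
      have hT' := Finset.mem_coe.mp hT
      rw [Finset.mem_filter, Finset.mem_filter] at hS' hT'
      have hiS := hS'.1.2
      have hiT := hT'.1.2
      have e1 : S ∩ FX V = T ∩ FX V := congrArg Prod.fst hST
      have e2 : RR V S = RR V T := congrArg Prod.snd hST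
      have e3 : S \ FX V = T \ FX V :=
        Finset.Subset.antisymm (sdiff_eq hiS hiT e2) (sdiff_eq hiT hiS e2.symm)
      rw [← Finset.sdiff_union_inter S (FX V), ← Finset.sdiff_union_inter T (FX V), e1, e3]
  refine le_trans h1 ?_
  rw [Finset.card_product, Finset.card_powersetCard, card_FX]
  exact Nat.mul_le_mul_left _ (card_small _)

theorem thmIS1 : Pool.Agent.Helper6.NX.S_IS1 := by
  classical
  intro n s V V' hn
  have key : ∑ S ∈ (Finset.powersetCard s (Finset.univ : Finset (Fin n))).filter
      (fun S => im V S = S), emb V V' S ≤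
      ∑ c ∈ Finset.range (s + 1), (fixc V).choose c * (fixc V').descFactorial c *
        ((∑ j ∈ Finset.range ((s - c) / 2 + 1), n.choose j) * n ^ ((s - c) / 2)) := by
    have hmaps : ∀ S ∈ (Finset.powersetCard s (Finset.univ : Finset (Fin n))).filter
        (fun S => im V S = S), (S ∩ FX V).card ∈ Finset.range (s + 1) := by
      intro S hS
      rw [Finset.mem_filter, Finset.mem_powersetCard] at hS
      rw [Finset.mem_range]
      have := Finset.card_le_card (Finset.inter_subset_left : S ∩ FX V ⊆ S)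
      omega
    rw [← Finset.sum_fiberwise_of_maps_to hmaps]
    refine Finset.sum_le_sum fun c _ => ?_
    have hb : ∀ S ∈ ((Finset.powersetCard s (Finset.univ : Finset (Fin n))).filter
        (fun S => im V S = S)).filter (fun S => (S ∩ FX V).card = c),
        emb V V' S ≤ (fixc V').descFactorial c * n ^ ((s - c) / 2) := by
      intro S hS
      rw [Finset.mem_filter, Finset.mem_filter, Finset.mem_powersetCard] at hS
      obtain ⟨⟨⟨_, hcard⟩, hinv⟩, hc⟩ := hS
      have h1 := emb_le (V' := V') hinv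
      rw [hc] at h1
      refine le_trans h1 (Nat.mul_le_mul_left _ ?_)
      refine Nat.pow_le_pow_right hn ?_
      have := card_RR_le hinv
      rw [hcard, hc] at this
      exact this
    refine le_trans (Finset.sum_le_card_nsmul _ _ _ hb) ?_
    rw [smul_eq_mul]
    refine le_trans (Nat.mul_le_mul_right _ (card_sets V s c)) (le_of_eq ?_)
    ring
  unfold II
  exact_mod_cast key

end Pool.Agent.Helper82.NX
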